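import Pool.Agent.R316.FfM

/-!
# Zeta-like depth-two multizeta tuples of weight at most `q^2` over `F_q[t]`

`F` is a finite field with `q` elements.  The completion `K_∞ = F((1/t))` of `F(t)` at infinity is
Mathlib's field `F⸨X⸩` of Laurent series over `F` (with its topology), the variable `X` of the
Laurent series standing for `1/t`.
-/

open scoped LaurentSeries
open Polynomial

namespace Pool.Agent.Results.MP_8c9ada_nt.ZetaLikePairs

variable (F : Type*) [Field F]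

/-- The element `t` of `K_∞ = F((1/t))`: the inverse of the variable of the Laurent series. -/
noncomputable def tt : F⸨X⸩ := HahnSeries.single (-1) 1

/-- A polynomial `a ∈ F[t]`, viewed in `K_∞`: its value at `t`. -/
noncomputable def val (a : F[X]) : F⸨X⸩ := aeval (tt F) a

/-- The Carlitz zeta value `ζ(s)`, the sum of `a^(-s)` over all monic `a`. -/
noncomputable def zeta (s : ℕ) : F⸨X⸩ :=
  ∑' a : {a : F[X] // a.Monic}, ((val F a.1)⁻¹) ^ s

/-- The depth two multizeta value `ζ(s₁, s₂)`, the sum of `a₁^(-s₁) a₂^(-s₂)` over all pairs of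
monic polynomials with `deg a₁ > deg a₂`. -/
noncomputable def zeta₂ (s₁ s₂ : ℕ) : F⸨X⸩ :=
  ∑' p : {p : F[X] × F[X] // p.1.Monic ∧ p.2.Monic ∧ p.2.natDegree < p.1.natDegree},
    ((val F p.1.1)⁻¹) ^ s₁ * ((val F p.1.2)⁻¹) ^ s₂

/-- The pair `(s₁, s₂)` is zeta-like: the ratio `ζ(s₁, s₂) / ζ(s₁ + s₂)` lies in `K = F(t)`. -/
def ZetaLike (s₁ s₂ : ℕ) : Prop :=
  ∃ a b : F[X], b ≠ 0 ∧ zeta₂ F s₁ s₂ / zeta F (s₁ + s₂) = val F a / val F b

/-- The set `L_q` of the problem: the pairs `(i, j (q-1))` with `1 ≤ i ≤ q` and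
`i ≤ j ≤ ⌊(q^2 - i)/(q-1)⌋`. -/
def Lset (q : ℕ) : Set (ℕ × ℕ) :=
  {s | ∃ i j : ℕ, 1 ≤ i ∧ i ≤ q ∧ i ≤ j ∧ j ≤ (q ^ 2 - i) / (q - 1) ∧ s = (i, j * (q - 1))}

/-- The series defining `ζ(s)` converges. -/
theorem summable_zeta [Fintype F] (s : ℕ) (hs : 0 < s) :
    Summable (fun a : {a : F[X] // a.Monic} => ((val F a.1)⁻¹) ^ s) :=
  Pool.Agent.R316.Ff.laurent_summable1 F s hs

/-- The series defining `ζ(s₁, s₂)` converges. -/
theorem summable_zeta₂ [Fintype F] (s₁ s₂ : ℕ) (hs₁ : 0 < s₁) :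
    Summable (fun p : {p : F[X] × F[X] // p.1.Monic ∧ p.2.Monic ∧ p.2.natDegree < p.1.natDegree} =>
      ((val F p.1.1)⁻¹) ^ s₁ * ((val F p.1.2)⁻¹) ^ s₂) :=
  Pool.Agent.R316.Ff.laurent_summable2 F s₁ s₂ hs₁

/-- **Answer to the question**, for every finite field `F` (so for every prime power
`q = #F`): every zeta-like pair `(s₁, s₂)` of positive integers (primitive or not, of any weight)
has the form `(i, j (q-1))` with `i ≤ j`; in particular every zeta-like pair with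
`s₁ + s₂ ≤ q^2` belongs to `L_q`. -/
theorem result (F : Type*) [Field F] [Fintype F] (s₁ s₂ : ℕ) (hs₁ : 0 < s₁) (hs₂ : 0 < s₂)
    (h : ZetaLike F s₁ s₂) :
    (∃ j : ℕ, s₂ = j * (Fintype.card F - 1) ∧ s₁ ≤ j) ∧
      (s₁ + s₂ ≤ Fintype.card F ^ 2 → (s₁, s₂) ∈ Lset (Fintype.card F)) := by
  obtain ⟨a, b, -, hab⟩ := h
  obtain ⟨⟨j, hj⟩, hle⟩ := Pool.Agent.R316.Ff.laurent_main F s₁ s₂ hs₁ hs₂ a b hab
  have hq1 : 1 < Fintype.card F := Fintype.one_lt_card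
  set q := Fintype.card F
  obtain ⟨e, he⟩ : ∃ e, q = e + 2 := ⟨q - 2, by omega⟩
  rw [he] at hle hj ⊢
  simp only [show e + 2 - 1 = e + 1 by omega] at hle hj ⊢
  have hsj : s₁ ≤ j := by
    rw [hj] at hle
    exact Nat.le_of_mul_le_mul_left hle (Nat.succ_pos e)
  refine ⟨⟨j, by rw [hj]; ring, hsj⟩, fun hw => ?_⟩
  have hsq : s₁ ≤ e + 2 := by
    by_contra hcon
    push Not at hcon
    have h1 : (e + 2) * (e + 2 + 1) ≤ (e + 2) * s₁ := Nat.mul_le_mul_left _ hcon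
    have h2 : (e + 1) * s₁ ≤ (e + 1) * j := Nat.mul_le_mul_left _ hsj
    have h3 : s₁ + (e + 1) * j ≤ (e + 2) ^ 2 := by rw [← hj]; exact hw
    nlinarith
  refine ⟨s₁, j, hs₁, hsq, hsj, ?_, ?_⟩
  · rw [show e + 2 - 1 = e + 1 by omega, Nat.le_div_iff_mul_le (Nat.succ_pos e)]
    have : j * (e + 1) = s₂ := by rw [hj]; ring
    rw [this]
    omega
  · rw [show e + 2 - 1 = e + 1 by omega]
    rw [hj, mul_comm]

end Pool.Agent.Results.MP_8c9ada_nt.ZetaLikePairs
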